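import Pool.Agent.Helper22_Sob.Facet

set_option autoImplicit false

open Set Filter Topology Metric MeasureTheory
open scoped ENNReal NNReal

namespace Pool.Agent.Helper22Sob

open Pool.Agent.Helper27Sob

/-- the free coordinates of a cell -/
abbrev UU (A : Cell) := {j : Fin 5 // Odd (A.q j)} → ℝ
/-- the other coordinates -/
abbrev VV (A : Cell) := {j : Fin 5 // ¬ Odd (A.q j)} → ℝ

/-- splitting of the coordinates -/
noncomputable def sp (A : Cell) : E ≃ᵐ UU A × VV A :=
  MeasurableEquiv.piEquivPiSubtypeProd (fun _ : Fin 5 => ℝ) (fun j => Odd (A.q j))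

lemma sp_fst (A : Cell) (x : E) (j : {j : Fin 5 // Odd (A.q j)}) : (sp A x).1 j = x j := rfl
lemma sp_snd (A : Cell) (x : E) (j : {j : Fin 5 // ¬ Odd (A.q j)}) : (sp A x).2 j = x j := rfl

lemma sp_symm_odd (A : Cell) (u : UU A) (v : VV A) {j : Fin 5} (h : Odd (A.q j)) :
    (sp A).symm (u, v) j = u ⟨j, h⟩ := by
  have := sp_fst A ((sp A).symm (u, v)) ⟨j, h⟩
  rw [MeasurableEquiv.apply_symm_apply] at this
  exact this.symm

lemma sp_symm_even (A : Cell) (u : UU A) (v : VV A) {j : Fin 5} (h : ¬ Odd (A.q j)) :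
    (sp A).symm (u, v) j = v ⟨j, h⟩ := by
  have := sp_snd A ((sp A).symm (u, v)) ⟨j, h⟩
  rw [MeasurableEquiv.apply_symm_apply] at this
  exact this.symm

lemma card_U (A : Cell) : Fintype.card {j : Fin 5 // Odd (A.q j)} = A.dim := by
  rw [Fintype.card_subtype]
  rfl

lemma card_V (A : Cell) : Fintype.card {j : Fin 5 // ¬ Odd (A.q j)} = 5 - A.dim := by
  rw [Fintype.card_subtype_compl, card_U, Fintype.card_fin]

lemma lint_split (A : Cell) (h : E → ℝ≥0∞) (hm : AEMeasurable h) :
    ∫⁻ x, h x = ∫⁻ v : VV A, ∫⁻ u : UU A, h ((sp A).symm (u, v)) := by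
  have hmp : MeasurePreserving (sp A) :=
    volume_preserving_piEquivPiSubtypeProd (fun _ : Fin 5 => ℝ) (fun j => Odd (A.q j))
  have hmp' := hmp.symm (sp A)
  rw [← hmp'.lintegral_comp_emb (sp A).symm.measurableEmbedding, Measure.volume_eq_prod,
    lintegral_prod_symm]
  exact (hm.comp_quasiMeasurePreserving hmp'.quasiMeasurePreserving)

lemma lint_scale (A : Cell) (φ : UU A → ℝ≥0∞) (hφ : Measurable φ) {m : ℝ} (hm : 0 < m) (b : UU A) :
    ∫⁻ u, φ (m⁻¹ • (u - b)) = ENNReal.ofReal (m ^ A.dim) * ∫⁻ u, φ u := by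
  rw [lintegral_sub_right_eq_self (fun u => φ (m⁻¹ • u)) b]
  have h1 := Measure.map_addHaar_smul (volume : Measure (UU A)) (r := m⁻¹) (inv_ne_zero hm.ne')
  have h2 := lintegral_map hφ (measurable_const_smul (m⁻¹) (α := UU A)) (μ := volume)
  rw [← h2]
  have h3 : (fun x : UU A => m⁻¹ • x) = (m⁻¹ • · : UU A → UU A) := rfl
  rw [h3, h1, lintegral_smul_measure, Module.finrank_fintype_fun_eq_card, card_U, smul_eq_mul]
  congr 2
  rw [abs_of_pos (by positivity), inv_pow, inv_inv]

/-- the free part of the centre -/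
noncomputable def cU (A : Cell) : UU A := fun j => A.center j
/-- the other part of the centre -/
noncomputable def cV (A : Cell) : VV A := fun j => A.center j

/-- the point of the affine span with given free coordinates -/
noncomputable def lift (A : Cell) (u : UU A) : E := (sp A).symm (u, cV A)

lemma proj_symm (A : Cell) (u : UU A) (v : VV A) : A.proj ((sp A).symm (u, v)) = lift A u := by
  ext j
  unfold Cell.proj lift
  split_ifs with h
  · rw [sp_symm_odd A u v h, sp_symm_odd A u _ h]
  · rw [sp_symm_even A u _ h]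
    rfl

lemma thick_iff (A : Cell) (u : UU A) (v : VV A) : (sp A).symm (u, v) ∈ A.thick ↔
    u ∈ closedBall (cU A) (A.len / 2) ∧ v ∈ closedBall (cV A) (A.len / 2) := by
  have hl : 0 ≤ A.len / 2 := by have := len_pos A; positivity
  unfold Cell.thick
  rw [mem_closedBall, mem_closedBall, mem_closedBall, dist_pi_le_iff hl, dist_pi_le_iff hl,
    dist_pi_le_iff hl]
  constructor
  · intro h
    constructor
    · rintro ⟨j, hj⟩
      have := h j
      rwa [sp_symm_odd A u v hj] at this
    · rintro ⟨j, hj⟩
      have := h j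
      rwa [sp_symm_even A u v hj] at this
  · rintro ⟨h1, h2⟩ j
    by_cases hj : Odd (A.q j)
    · rw [sp_symm_odd A u v hj]; exact h1 ⟨j, hj⟩
    · rw [sp_symm_even A u v hj]; exact h2 ⟨j, hj⟩

lemma carrier_lift {A : Cell} {x : E} (hx : x ∈ A.carrier) :
    (sp A x).1 ∈ closedBall (cU A) (A.len / 2) ∧ lift A (sp A x).1 = x := by
  have hl : 0 ≤ A.len / 2 := by have := len_pos A; positivity
  constructor
  · rw [mem_closedBall, dist_pi_le_iff hl]
    rintro ⟨j, hj⟩
    have := hx j
    rw [if_pos hj] at this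
    exact this
  · ext j
    unfold lift
    by_cases hj : Odd (A.q j)
    · rw [sp_symm_odd A _ _ hj]; rfl
    · rw [sp_symm_even A _ _ hj]
      exact (fixed_coord hj hx).symm

/-- the planar integral -/
noncomputable def II (A : Cell) (g : E → ℝ≥0∞) : ℝ≥0∞ :=
  ∫⁻ u in closedBall (cU A) (A.len / 2), g (lift A u)

lemma measurable_lift (A : Cell) : Measurable (lift A) :=
  (sp A).symm.measurable.comp (measurable_id.prodMk measurable_const)

lemma measurable_proj (A : Cell) : Measurable A.proj := by
  unfold Cell.proj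
  apply measurable_pi_lambda
  intro j
  split_ifs
  · exact measurable_pi_apply j
  · exact measurable_const

lemma vol_V (A : Cell) (c : VV A) {l : ℝ} (hl : 0 ≤ l) :
    volume (closedBall c (l / 2)) = ENNReal.ofReal (l ^ (5 - A.dim)) := by
  rw [Real.volume_pi_closedBall _ (by positivity), card_V]
  congr 2
  ring

lemma rhs_eq (A : Cell) (g : E → ℝ≥0∞) (hg : Measurable g) :
    ∫⁻ y in A.thick, g (A.proj y) = ENNReal.ofReal (A.len ^ (5 - A.dim)) * II A g := by
  have hth : MeasurableSet A.thick := by
    unfold Cell.thick; exact isClosed_closedBall.measurableSet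
  have hgm : Measurable fun y => g (A.proj y) := hg.comp (measurable_proj A)
  rw [← lintegral_indicator hth, lint_split A _ (hgm.indicator hth).aemeasurable]
  have h1 : ∀ v : VV A, ∫⁻ u : UU A, A.thick.indicator (fun y => g (A.proj y)) ((sp A).symm (u, v))
      = (closedBall (cV A) (A.len / 2)).indicator (fun _ => II A g) v := by
    intro v
    by_cases hv : v ∈ closedBall (cV A) (A.len / 2)
    · rw [indicator_of_mem hv]
      unfold II
      rw [← lintegral_indicator isClosed_closedBall.measurableSet]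
      apply lintegral_congr
      intro u
      by_cases hu : u ∈ closedBall (cU A) (A.len / 2)
      · rw [indicator_of_mem hu, indicator_of_mem ((thick_iff A u v).mpr ⟨hu, hv⟩), proj_symm]
      · rw [indicator_of_notMem hu, indicator_of_notMem]
        intro h
        exact hu ((thick_iff A u v).mp h).1
    · rw [indicator_of_notMem hv]
      have : ∀ u : UU A, A.thick.indicator (fun y => g (A.proj y)) ((sp A).symm (u, v)) = 0 := by
        intro u
        rw [indicator_of_notMem]
        intro h
        exact hv ((thick_iff A u v).mp h).2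
      simp_rw [this]
      simp
  simp_rw [h1]
  rw [lintegral_indicator isClosed_closedBall.measurableSet, lintegral_const,
    Measure.restrict_apply_univ, vol_V A _ (len_pos A).le, mul_comm]

section simplex

variable {C : Set E} {F : Fin 6 → Cell}

lemma wt_contOn (hf : FlagFacts C F) (k : Fin 6) :
    ContinuousOn (fun x => wt F x k) (openSimplex F) := by
  have hl := len_pos (F 5)
  have : LipschitzOnWith (Real.toNNReal (128 / (F 5).len)) (fun x => wt F x k) (openSimplex F) := by
    apply LipschitzOnWith.of_dist_le_mul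
    intro x hx y hy
    rw [Real.dist_eq, Real.coe_toNNReal _ (by positivity), dist_eq_norm]
    refine (hf.lip x hx y hy k).trans (le_of_eq ?_)
    ring
  exact this.continuousOn

lemma mu_contOn (hf : FlagFacts C F) : ContinuousOn (mu F) (openSimplex F) := by
  unfold mu
  exact ((wt_contOn hf 0).add (wt_contOn hf 1)).add (wt_contOn hf 2)

lemma aa_contOn (hf : FlagFacts C F) : ContinuousOn (aa F) (openSimplex F) := by
  unfold aa
  refine ContinuousOn.smul (f := fun x => (mu F x)⁻¹) (g := fun x => wt F x 0 • (F 0).center +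
    wt F x 1 • (F 1).center + wt F x 2 • (F 2).center) ?_ ?_
  · exact (mu_contOn hf).inv₀ fun x hx => (mu_pos hf hx).ne'
  · exact (((wt_contOn hf 0).smul continuousOn_const).add
      ((wt_contOn hf 1).smul continuousOn_const)).add ((wt_contOn hf 2).smul continuousOn_const)

lemma lhs_meas (hf : FlagFacts C F) {g : E → ℝ≥0∞} (hg : Measurable g) :
    AEMeasurable ((openSimplex F).indicator fun x => g (aa F x) / ENNReal.ofReal (mu F x) ^ 2) := by
  rw [aemeasurable_indicator_iff hf.op.measurableSet]
  apply AEMeasurable.div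
  · exact hg.comp_aemeasurable ((aa_contOn hf).aemeasurable hf.op.measurableSet)
  · exact ((mu_contOn hf).aemeasurable hf.op.measurableSet).ennreal_ofReal.pow_const 2

lemma sub_mu_smul (hf : FlagFacts C F) {x : E} (hx : x ∈ openSimplex F) :
    x = mu F x • aa F x + (wt F x 3 • (F 3).center + wt F x 4 • (F 4).center +
      wt F x 5 • (F 5).center) := by
  have hm := (mu_pos hf hx).ne'
  conv_lhs => rw [← hf.comb x hx]
  unfold comb aa
  rw [Fin.sum_univ_six, smul_smul, mul_inv_cancel₀ hm, one_smul]
  abel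

lemma lhs_inner (h1 : A1Statement) (hC : IsClosed C) (hf : FlagFacts C F) {g : E → ℝ≥0∞}
    (hg : Measurable g) (v : VV (F 2)) :
    ∫⁻ u : UU (F 2), (openSimplex F).indicator
      (fun x => g (aa F x) / ENNReal.ofReal (mu F x) ^ 2) ((sp (F 2)).symm (u, v)) ≤
    (closedBall (fun j => (F 5).center j : VV (F 2)) ((F 5).len / 2)).indicator
      (fun _ => II (F 2) g) v := by
  by_cases hex : ∃ u, (sp (F 2)).symm (u, v) ∈ openSimplex F
  · obtain ⟨u₀, hu₀⟩ := hex
    set x₀ := (sp (F 2)).symm (u₀, v) with hx₀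
    have hm := mu_pos hf hu₀
    have hx5 : x₀ ∈ (F 5).carrier := by
      have h2 : x₀ = ∑ k, wt F x₀ k • (F k).center := (hf.comb x₀ hu₀).symm
      rw [h2]
      apply (convex_carrier (F 5)).sum_mem
      · intro k _; exact ((hf.w x₀ hu₀).pos k).le
      · exact (hf.w x₀ hu₀).sum
      · intro k _; exact flag_center hf.flag k 5 (Fin.le_last k)
    have hv : v ∈ closedBall (fun j => (F 5).center j : VV (F 2)) ((F 5).len / 2) := by
      have hl : 0 ≤ (F 5).len / 2 := by have := len_pos (F 5); positivity
      rw [mem_closedBall, dist_pi_le_iff hl]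
      rintro ⟨j, hj⟩
      have h3 := hx5 j
      rw [hx₀, sp_symm_even _ _ _ hj] at h3
      rw [Real.dist_eq]
      refine h3.trans ?_
      split_ifs
      · exact le_rfl
      · exact hl
    rw [indicator_of_mem hv]
    set b : E := wt F x₀ 3 • (F 3).center + wt F x₀ 4 • (F 4).center + wt F x₀ 5 • (F 5).center
      with hb
    set φ : UU (F 2) → ℝ≥0∞ := (closedBall (cU (F 2)) ((F 2).len / 2)).indicator
      (fun u => g (lift (F 2) u)) with hφ
    have hφm : Measurable φ := by
      rw [hφ]
      exact (hg.comp (measurable_lift _)).indicator isClosed_closedBall.measurableSet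
    have hpt : ∀ u, (openSimplex F).indicator
        (fun x => g (aa F x) / ENNReal.ofReal (mu F x) ^ 2) ((sp (F 2)).symm (u, v)) ≤
        (ENNReal.ofReal (mu F x₀) ^ 2)⁻¹ * φ ((mu F x₀)⁻¹ • (u - (sp (F 2) b).1)) := by
      intro u
      by_cases hu : (sp (F 2)).symm (u, v) ∈ openSimplex F
      · set x := (sp (F 2)).symm (u, v) with hx
        rw [indicator_of_mem hu]
        obtain ⟨w3, w4, w5⟩ := same_weights h1 hC hf hu hu₀ (by
          intro j hj
          rw [hx, hx₀, sp_symm_even _ _ _ hj, sp_symm_even _ _ _ hj])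
        have hmu : mu F x = mu F x₀ := by
          have e1 := (hf.w x hu).sum
          have e2 := (hf.w x₀ hu₀).sum
          rw [Fin.sum_univ_six] at e1 e2
          unfold mu
          linarith
        have hsub := sub_mu_smul hf hu
        rw [w3, w4, w5, ← hb, hmu] at hsub
        have haa : (sp (F 2) (aa F x)).1 = (mu F x₀)⁻¹ • (u - (sp (F 2) b).1) := by
          ext j
          rw [sp_fst, Pi.smul_apply, Pi.sub_apply, sp_fst, smul_eq_mul]
          have h4 : u j = mu F x₀ * aa F x j + b j := by
            have h5 : x j = u j := by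
              rw [hx]; exact sp_symm_odd _ _ _ j.2
            rw [← h5, hsub]
            simp only [Pi.add_apply, Pi.smul_apply, smul_eq_mul]
            rw [← hsub]
          rw [h4]
          field_simp
          ring
        obtain ⟨h6, h7⟩ := carrier_lift (aa_mem hf hu)
        rw [haa] at h6 h7
        rw [hφ, indicator_of_mem h6, h7, hmu, ENNReal.div_eq_inv_mul]
      · rw [indicator_of_notMem hu]
        exact zero_le
    refine (lintegral_mono hpt).trans ?_
    rw [lintegral_const_mul' _ _ (by simp [hm]), lint_scale (F 2) φ hφm hm, (hf.flag.1 2).2]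
    rw [← mul_assoc]
    have h8 : (ENNReal.ofReal (mu F x₀) ^ 2)⁻¹ * ENNReal.ofReal (mu F x₀ ^ ((2 : Fin 6) : ℕ)) = 1 := by
      rw [show ((2 : Fin 6) : ℕ) = 2 from rfl, ENNReal.ofReal_pow hm.le]
      apply ENNReal.inv_mul_cancel
      · simp [hm]
      · simp
    rw [h8, one_mul, hφ, lintegral_indicator isClosed_closedBall.measurableSet]
    exact le_rfl
  · push Not at hex
    have : ∀ u : UU (F 2), (openSimplex F).indicator
        (fun x => g (aa F x) / ENNReal.ofReal (mu F x) ^ 2) ((sp (F 2)).symm (u, v)) = 0 :=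
      fun u => indicator_of_notMem (hex u) _
    simp_rw [this]
    simp

end simplex

theorem a6 (h1 : A1Statement) (h5 : A5Statement) : A6Statement := by
  intro C hC F hF
  have hf := flagFacts h5 hC hF
  have key : ∀ g : E → ℝ≥0∞, Measurable g →
      ∫⁻ x in openSimplex F, g (aa F x) / ENNReal.ofReal (mu F x) ^ 2 ≤
      8 * ∫⁻ y in (F 2).thick, g ((F 2).proj y) := by
    intro g hg
    rw [rhs_eq _ _ hg, ← lintegral_indicator hf.op.measurableSet, lint_split (F 2) _ (lhs_meas hf hg)]
    refine (lintegral_mono (lhs_inner h1 hC hf hg)).trans ?_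
    rw [lintegral_indicator isClosed_closedBall.measurableSet, lintegral_const,
      Measure.restrict_apply_univ, vol_V (F 2) _ (len_pos (F 5)).le, mul_comm, ← mul_assoc]
    apply mul_le_mul_left
    have hlen : (F 5).len ≤ 2 * (F 2).len := by
      have h2 := ((h1 C hC).2.2.1 (F 5) (F 2) (F 2).center (hF.1 5).1 (hF.1 2).1
        (flag_center hF 2 5 (by decide)) (center_mem_inner _)).2.2
      unfold Cell.len ell
      rcases h2 with h2 | h2
      · rw [h2]
        have : (0:ℝ) < (1/2) ^ (F 5).i := by positivity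
        linarith
      · rw [h2, pow_succ]
        linarith
    have h2 : (F 2).dim = 2 := (hF.1 2).2
    rw [h2, show (8 : ℝ≥0∞) = ENNReal.ofReal 8 by simp, ← ENNReal.ofReal_mul (by norm_num)]
    apply ENNReal.ofReal_le_ofReal
    have h3 := pow_le_pow_left₀ (len_pos (F 5)).le hlen 3
    norm_num
    calc (F 5).len ^ 3 ≤ (2 * (F 2).len) ^ 3 := h3
      _ = 8 * (F 2).len ^ 3 := by ring
  refine ⟨key, ?_⟩
  intro B hB
  -- the planar null set
  set B' : Set (UU (F 2)) := {u | u ∈ closedBall (cU (F 2)) ((F 2).len / 2) ∧ lift (F 2) u ∈ B}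
    with hB'
  have hnull : volume B' = 0 := by
    have h2 : volume ((sp (F 2)).symm ⁻¹' {y | y ∈ (F 2).thick ∧ (F 2).proj y ∈ B}) = 0 := by
      have hmp : MeasurePreserving (sp (F 2)) :=
        volume_preserving_piEquivPiSubtypeProd (fun _ : Fin 5 => ℝ) (fun j => Odd ((F 2).q j))
      rw [(hmp.symm (sp (F 2))).measure_preimage_equiv]
      have h3 := ae_iff.mp hB
      refine measure_mono_null ?_ h3
      intro y hy
      simp only [mem_ofPred_eq, not_forall, not_not]
      exact ⟨hy.1, hy.2⟩
    have h3 : (B' ×ˢ closedBall (cV (F 2)) ((F 2).len / 2) : Set (UU (F 2) × VV (F 2))) ⊆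
        (sp (F 2)).symm ⁻¹' {y | y ∈ (F 2).thick ∧ (F 2).proj y ∈ B} := by
      rintro ⟨u, v⟩ ⟨hu, hv⟩
      refine ⟨(thick_iff _ _ _).mpr ⟨hu.1, hv⟩, ?_⟩
      rw [proj_symm]
      exact hu.2
    have h4 := measure_mono_null h3 h2
    rw [Measure.volume_eq_prod, Measure.prod_prod] at h4
    rcases mul_eq_zero.mp h4 with h | h
    · exact h
    · exfalso
      rw [vol_V _ _ (len_pos _).le] at h
      have := len_pos (F 2)
      simp at h
      have h5 : 0 < (F 2).len ^ (5 - (F 2).dim) := by positivity
      linarith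
  obtain ⟨N, hBN, hNm, hN0⟩ := exists_measurable_superset_of_null hnull
  have hNm' : Measurable fun y : E => N.indicator (fun _ => (1 : ℝ≥0∞)) (sp (F 2) y).1 :=
    (measurable_const.indicator hNm).comp (measurable_fst.comp (sp (F 2)).measurable)
  have h2 := key (fun y => N.indicator (fun _ => 1) (sp (F 2) y).1) hNm'
  have h3 : ∫⁻ y in (F 2).thick, N.indicator (fun _ => (1 : ℝ≥0∞)) (sp (F 2) ((F 2).proj y)).1 = 0 := by
    rw [rhs_eq (F 2) (fun y => N.indicator (fun _ => 1) (sp (F 2) y).1) hNm']
    have : II (F 2) (fun y => N.indicator (fun _ => 1) (sp (F 2) y).1) = 0 := by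
      unfold II
      have h4 : ∀ u : UU (F 2), (sp (F 2) (lift (F 2) u)).1 = u := by
        intro u
        unfold lift
        rw [MeasurableEquiv.apply_symm_apply]
      simp_rw [h4]
      rw [← le_zero_iff]
      calc _ ≤ ∫⁻ u : UU (F 2), N.indicator (fun _ => (1 : ℝ≥0∞)) u := setLIntegral_le_lintegral _ _
        _ = 0 := by rw [lintegral_indicator hNm]; simp [hN0]
    rw [this, mul_zero]
  rw [h3, mul_zero, nonpos_iff_eq_zero, ← lintegral_indicator hf.op.measurableSet,
    lintegral_eq_zero_iff' (lhs_meas hf hNm')] at h2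
  filter_upwards [h2] with x hx hxs hxB
  rw [indicator_of_mem hxs] at hx
  obtain ⟨h6, h7⟩ := carrier_lift (aa_mem hf hxs)
  have h8 : (sp (F 2) (aa F x)).1 ∈ N := by
    apply hBN
    refine ⟨h6, ?_⟩
    rw [h7]
    exact hxB
  rw [indicator_of_mem h8] at hx
  simp at hx

end Pool.Agent.Helper22Sob
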