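import Pool.Agent.Helper22_Sob.Geo

set_option autoImplicit false

open Set Filter Topology Metric MeasureTheory
open scoped ENNReal NNReal

namespace Pool.Agent.Helper22Sob

open Pool.Agent.Helper27Sob

/-- the facts from A5 -/
structure FlagFacts (C : Set E) (F : Fin 6 → Cell) : Prop where
  flag : IsFlag C F
  op : IsOpen (openSimplex F)
  w : ∀ x ∈ openSimplex F, Wts (wt F x)
  comb : ∀ x ∈ openSimplex F, comb F (wt F x) = x
  lip : ∀ x ∈ openSimplex F, ∀ y ∈ openSimplex F, ∀ k,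
    |wt F x k - wt F y k| ≤ 128 * ‖x - y‖ / (F 5).len

lemma flagFacts (h5 : A5Statement) {C : Set E} (hC : IsClosed C) {F : Fin 6 → Cell}
    (hF : IsFlag C F) : FlagFacts C F := by
  obtain ⟨h1, h2, h3, h4, -, -⟩ := (h5 C hC).1 F hF
  refine ⟨hF, h1, fun x hx => ⟨(h3 x hx).1, (h3 x hx).2.1⟩, fun x hx => (h3 x hx).2.2,
    fun x hx y hy k => ?_⟩
  rw [le_div_iff₀ (len_pos _)]
  exact h4 x hx y hy k

/-- the squeezed point -/
noncomputable def SS (F : Fin 6 → Cell) (ε w : Fin 6 → ℝ) : E := ∑ k, bb ε w k • (F k).center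

lemma SS_eq (F : Fin 6 → Cell) (ε w : Fin 6 → ℝ) :
    (∑ k, ε k * w k)⁻¹ • ∑ k, (ε k * w k) • (F k).center = SS F ε w := by
  unfold SS bb
  rw [Finset.smul_sum]
  apply Finset.sum_congr rfl
  intro k _
  rw [smul_smul, div_eq_inv_mul]

lemma sum_zero_smul (F : Fin 6 → Cell) (a : Fin 6 → ℝ) (ha : ∑ k, a k = 0) :
    ∑ k, a k • (F k).center = ∑ k, a k • ((F k).center - (F 2).center) := by
  simp_rw [smul_sub]
  rw [Finset.sum_sub_distrib, ← Finset.sum_smul, ha, zero_smul, sub_zero]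

section main

variable {C : Set E} {F : Fin 6 → Cell} {ε w w' : Fin 6 → ℝ} {e d : ℝ}

/-- the tangential part -/
noncomputable def tauv (F : Fin 6 → Cell) (ε w w' : Fin 6 → ℝ) : E :=
  ∑ k ∈ Finset.univ.filter (fun k : Fin 6 => k ≤ 2),
    (bb ε w' k - bb ε w k) • ((F k).center - (F 2).center)

/-- the normal part -/
noncomputable def nuv (F : Fin 6 → Cell) (ε w w' : Fin 6 → ℝ) : E :=
  ∑ k ∈ Finset.univ.filter (fun k : Fin 6 => ¬ k ≤ 2),
    (bb ε w' k - bb ε w k) • ((F k).center - (F 2).center)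

lemma SS_sub (he : Eps ε e) (h : Wts w) (h' : Wts w') :
    SS F ε w' - SS F ε w = tauv F ε w w' + nuv F ε w w' := by
  unfold SS tauv nuv
  rw [Finset.sum_filter_add_sum_filter_not, ← Finset.sum_sub_distrib, ← sum_zero_smul]
  · apply Finset.sum_congr rfl
    intro k _
    rw [sub_smul]
  · rw [Finset.sum_sub_distrib, bb_sum he h, bb_sum he h', sub_self]

lemma card_low : (Finset.univ.filter (fun k : Fin 6 => k ≤ 2)).card = 3 := by decide
lemma card_high : (Finset.univ.filter (fun k : Fin 6 => ¬ k ≤ 2)).card = 3 := by decide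

lemma tauv_norm (hF : IsFlag C F) (he : Eps ε e) (h : Wts w) (h' : Wts w')
    (hd : ∀ k, |w k - w' k| ≤ d) :
    ‖tauv F ε w w'‖ ≤ 21 * d / (w 0 + w 1 + w 2) * (F 5).len := by
  refine (norm_comb_le hF _ _ _ fun k _ => bb_diff he h h' hd k).trans (le_of_eq ?_)
  rw [card_low]
  push_cast
  ring

lemma nuv_norm (hF : IsFlag C F) (he : Eps ε e) (h : Wts w) (h' : Wts w')
    (hd : ∀ k, |w k - w' k| ≤ d) :
    ‖nuv F ε w w'‖ ≤ 21 * e * d / ((w 0 + w 1 + w 2) * (w' 0 + w' 1 + w' 2)) * (F 5).len := by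
  refine (norm_comb_le hF _ _ _ fun k hk => bb_diff3 he h h' hd k ?_).trans (le_of_eq ?_)
  · have := (Finset.mem_filter.mp hk).2
    rw [not_le] at this
    revert this
    revert k
    decide
  · rw [card_high]
    push_cast
    ring

lemma nuv_norm' (hF : IsFlag C F) (he : Eps ε e) (h : Wts w) (h' : Wts w')
    (hd : ∀ k, |w k - w' k| ≤ d) :
    ‖nuv F ε w w'‖ ≤ 21 * d / (w 0 + w 1 + w 2) * (F 5).len := by
  refine (norm_comb_le hF _ _ _ fun k _ => bb_diff he h h' hd k).trans (le_of_eq ?_)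
  rw [card_high]
  push_cast
  ring

lemma tauv_mem (hF : IsFlag C F) : tauv F ε w w' ∈ (F 2).dir := comb_mem_dir hF _

lemma SS_sub_aa (hf : FlagFacts C F) (he : Eps ε e) {x : E} (hx : x ∈ openSimplex F) :
    ‖SS F ε (wt F x) - aa F x‖ ≤ 6 * e / (mu F x) ^ 2 * (F 5).len := by
  have h := hf.w x hx
  have hm := m_pos h
  have hm1 := m_le_one h
  set a : Fin 6 → ℝ := fun k => bb ε (wt F x) k - if k ≤ 2 then wt F x k / mu F x else 0 with ha
  have hsum : ∑ k, a k = 0 := by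
    rw [ha, Finset.sum_sub_distrib, bb_sum he h, Fin.sum_univ_six]
    have i0 : (0 : Fin 6) ≤ 2 := by decide
    have i1 : (1 : Fin 6) ≤ 2 := by decide
    have i3 : ¬ (3 : Fin 6) ≤ 2 := by decide
    have i4 : ¬ (4 : Fin 6) ≤ 2 := by decide
    have i5 : ¬ (5 : Fin 6) ≤ 2 := by decide
    rw [if_pos i0, if_pos i1, if_pos le_rfl, if_neg i3, if_neg i4, if_neg i5]
    have : mu F x ≠ 0 := hm.ne'
    unfold mu at this ⊢
    field_simp
    ring
  have heq : SS F ε (wt F x) - aa F x = ∑ k, a k • (F k).center := by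
    have i0 : (0 : Fin 6) ≤ 2 := by decide
    have i1 : (1 : Fin 6) ≤ 2 := by decide
    have i3 : ¬ (3 : Fin 6) ≤ 2 := by decide
    have i4 : ¬ (4 : Fin 6) ≤ 2 := by decide
    have i5 : ¬ (5 : Fin 6) ≤ 2 := by decide
    have h2 : ∑ k, (if k ≤ 2 then wt F x k / mu F x else 0) • (F k).center = aa F x := by
      rw [Fin.sum_univ_six, if_pos i0, if_pos i1, if_pos le_rfl, if_neg i3, if_neg i4, if_neg i5]
      unfold aa
      simp only [zero_smul, add_zero, smul_add, smul_smul, div_eq_inv_mul]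
    rw [← h2]
    unfold SS
    rw [← Finset.sum_sub_distrib]
    apply Finset.sum_congr rfl
    intro k _
    rw [ha, ← sub_smul]
  have hbd : ∀ k ∈ (Finset.univ : Finset (Fin 6)), |a k| ≤ e / (mu F x) ^ 2 := by
    intro k _
    by_cases hk : k ≤ 2
    · rw [ha]
      simp only [if_pos hk]
      exact bb_low he h k hk
    · rw [ha]
      simp only [if_neg hk, sub_zero]
      have hk3 : 3 ≤ k := by
        rw [not_le] at hk
        revert hk
        revert k
        decide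
      rw [abs_of_nonneg (bb_nonneg he h k)]
      refine (bb_high he h k hk3).trans ?_
      have he0 : 0 < e := (he.pos k).1.trans_le (he.h3 k hk3)
      apply div_le_div_of_nonneg_left he0.le (by unfold mu; positivity)
      unfold mu
      nlinarith
  rw [heq, sum_zero_smul F a hsum]
  refine (norm_comb_le hf.flag _ _ _ hbd).trans (le_of_eq ?_)
  rw [Finset.card_univ, Fintype.card_fin]
  push_cast
  ring

lemma tauv_le (hf : FlagFacts C F) (he : Eps ε e) {x y : E} (hx : x ∈ openSimplex F)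
    (hy : y ∈ openSimplex F) :
    ‖tauv F ε (wt F x) (wt F y)‖ ≤ 2688 / mu F x * ‖y - x‖ := by
  have hl := len_pos (F 5)
  refine (tauv_norm hf.flag he (hf.w x hx) (hf.w y hy) (hf.lip x hx y hy)).trans (le_of_eq ?_)
  rw [norm_sub_rev x y]
  unfold mu
  field_simp
  ring

lemma nuv_le' (hf : FlagFacts C F) (he : Eps ε e) {x y : E} (hx : x ∈ openSimplex F)
    (hy : y ∈ openSimplex F) :
    ‖nuv F ε (wt F x) (wt F y)‖ ≤ 2688 / mu F x * ‖y - x‖ := by
  have hl := len_pos (F 5)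
  refine (nuv_norm' hf.flag he (hf.w x hx) (hf.w y hy) (hf.lip x hx y hy)).trans (le_of_eq ?_)
  rw [norm_sub_rev x y]
  unfold mu
  field_simp
  ring

lemma nuv_le (hf : FlagFacts C F) (he : Eps ε e) {x y : E} (hx : x ∈ openSimplex F)
    (hy : y ∈ openSimplex F) :
    ‖nuv F ε (wt F x) (wt F y)‖ ≤ 2688 * e / (mu F x * mu F y) * ‖y - x‖ := by
  have hl := len_pos (F 5)
  refine (nuv_norm hf.flag he (hf.w x hx) (hf.w y hy) (hf.lip x hx y hy)).trans (le_of_eq ?_)
  rw [norm_sub_rev x y]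
  unfold mu
  field_simp
  ring

lemma SS_diff_le (hf : FlagFacts C F) (he : Eps ε e) {x y : E} (hx : x ∈ openSimplex F)
    (hy : y ∈ openSimplex F) :
    ‖SS F ε (wt F y) - SS F ε (wt F x)‖ ≤ 5376 / mu F x * ‖y - x‖ := by
  rw [SS_sub he (hf.w x hx) (hf.w y hy)]
  refine (norm_add_le _ _).trans ?_
  have h1 := tauv_le hf he hx hy
  have h2 := nuv_le' hf he hx hy
  have h3 : 5376 / mu F x * ‖y - x‖ = 2688 / mu F x * ‖y - x‖ + 2688 / mu F x * ‖y - x‖ := by ring
  linarith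

lemma mu_pos (hf : FlagFacts C F) {x : E} (hx : x ∈ openSimplex F) : 0 < mu F x :=
  m_pos (hf.w x hx)

lemma mu_le_one (hf : FlagFacts C F) {x : E} (hx : x ∈ openSimplex F) : mu F x ≤ 1 :=
  m_le_one (hf.w x hx)

lemma small_ev {K r : ℝ} (_hK : 0 ≤ K) (hr : 0 < r) (x : E) : ∀ᶠ y in 𝓝 x, K * ‖y - x‖ < r := by
  have h1 : Tendsto (fun y : E => K * ‖y - x‖) (𝓝 x) (𝓝 (K * ‖x - x‖)) := by
    have : Continuous fun y : E => K * ‖y - x‖ := by fun_prop
    exact this.tendsto x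
  rw [sub_self, norm_zero, mul_zero] at h1
  exact h1.eventually (gt_mem_nhds hr)

lemma fderiv_bound1 (hf : FlagFacts C F) (he : Eps ε e) {s G : E → E} {L : ℝ≥0} {x : E} {r : ℝ}
    (hs : ∀ x ∈ openSimplex F, s x = SS F ε (wt F x)) (hx : x ∈ openSimplex F) (hr : 0 < r)
    (hL : LipschitzOnWith L G (ball (s x) r)) :
    ‖fderiv ℝ (G ∘ s) x‖ ≤ L * (5376 / mu F x) := by
  have hm := mu_pos hf hx
  apply norm_fderiv_le_of_lip' ℝ (by positivity)
  filter_upwards [hf.op.mem_nhds hx, small_ev (K := 5376 / mu F x) (by positivity) hr x] with y hy h1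
  have h2 : ‖s y - s x‖ ≤ 5376 / mu F x * ‖y - x‖ := by
    rw [hs x hx, hs y hy]
    exact SS_diff_le hf he hx hy
  have h3 : s y ∈ ball (s x) r := by
    rw [mem_ball, dist_eq_norm]
    exact h2.trans_lt h1
  have h4 := hL.dist_le_mul (s y) h3 (s x) (mem_ball_self hr)
  rw [dist_eq_norm, dist_eq_norm] at h4
  refine h4.trans ?_
  rw [mul_assoc]
  exact mul_le_mul_of_nonneg_left h2 L.2

lemma fderiv_bound2 (hf : FlagFacts C F) (he : Eps ε e) {s G : E → E} {L : ℝ≥0} {x : E} {r m : ℝ}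
    (hs : ∀ x ∈ openSimplex F, s x = SS F ε (wt F x)) (hx : x ∈ openSimplex F) (hr : 0 < r)
    (hL : LipschitzOnWith L G (ball (aa F x) r)) (hm0 : 0 ≤ m)
    (htan : ∀ z ∈ ball (aa F x) r, ∀ τ ∈ (F 2).dir, z + τ ∈ ball (aa F x) r →
      ‖G (z + τ) - G z‖ ≤ m * ‖τ‖)
    (hsmall : 6 * e / (mu F x) ^ 2 * (F 5).len < r / 2) :
    ‖fderiv ℝ (G ∘ s) x‖ ≤ m * (2688 / mu F x) + L * (5376 * e / (mu F x) ^ 2) := by
  have hm := mu_pos hf hx
  have he0 : 0 < e := (he.pos 3).1.trans_le (he.h3 3 (by decide))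
  apply norm_fderiv_le_of_lip' ℝ (by positivity)
  have hmuc : ∀ᶠ y in 𝓝 x, mu F x / 2 ≤ mu F y := by
    filter_upwards [hf.op.mem_nhds hx,
      small_ev (K := 3 * 128 / (F 5).len) (by have := len_pos (F 5); positivity) (half_pos hm) x]
      with y hy h1
    have e0 := hf.lip x hx y hy 0
    have e1 := hf.lip x hx y hy 1
    have e2 := hf.lip x hx y hy 2
    rw [norm_sub_rev] at e0 e1 e2
    have i0 := (abs_le.mp e0).2
    have i1 := (abs_le.mp e1).2
    have i2 := (abs_le.mp e2).2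
    have h2 : 3 * 128 / (F 5).len * ‖y - x‖ = 3 * (128 * ‖y - x‖ / (F 5).len) := by ring
    unfold mu at h1 ⊢
    linarith
  filter_upwards [hf.op.mem_nhds hx, hmuc,
    small_ev (K := 5376 / mu F x) (by positivity) (half_pos hr) x] with y hy hmy h1
  have h2688 : 2688 / mu F x * ‖y - x‖ < r / 2 := by
    have : 2688 / mu F x * ‖y - x‖ ≤ 5376 / mu F x * ‖y - x‖ := by
      apply mul_le_mul_of_nonneg_right _ (norm_nonneg _)
      gcongr
      norm_num
    linarith
  have hτ := tauv_le hf he hx hy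
  have hν : ‖nuv F ε (wt F x) (wt F y)‖ ≤ 5376 * e / (mu F x) ^ 2 * ‖y - x‖ := by
    refine (nuv_le hf he hx hy).trans ?_
    apply mul_le_mul_of_nonneg_right _ (norm_nonneg _)
    rw [div_le_div_iff₀ (mul_pos hm (mu_pos hf hy)) (by positivity)]
    nlinarith [mul_pos hm he0, mul_le_mul_of_nonneg_left hmy (mul_pos (mul_pos hm hm) he0).le]
  have hsx : ‖s x - aa F x‖ < r / 2 := by
    rw [hs x hx]
    exact (SS_sub_aa hf he hx).trans_lt hsmall
  have hsub : s y - s x = tauv F ε (wt F x) (wt F y) + nuv F ε (wt F x) (wt F y) := by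
    rw [hs x hx, hs y hy, SS_sub he (hf.w x hx) (hf.w y hy)]
  have hsyx : ‖s y - s x‖ < r / 2 := by
    rw [hs x hx, hs y hy]
    exact (SS_diff_le hf he hx hy).trans_lt h1
  have m1 : s x ∈ ball (aa F x) r := by
    rw [mem_ball, dist_eq_norm]; linarith
  have m2 : s x + tauv F ε (wt F x) (wt F y) ∈ ball (aa F x) r := by
    rw [mem_ball, dist_eq_norm]
    have : s x + tauv F ε (wt F x) (wt F y) - aa F x =
        (s x - aa F x) + tauv F ε (wt F x) (wt F y) := by abel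
    rw [this]
    exact (norm_add_le _ _).trans_lt (by linarith)
  have m3 : s y ∈ ball (aa F x) r := by
    rw [mem_ball, dist_eq_norm]
    have : s y - aa F x = (s y - s x) + (s x - aa F x) := by abel
    rw [this]
    exact (norm_add_le _ _).trans_lt (by linarith)
  have k1 := htan (s x) m1 _ (tauv_mem (ε := ε) (w := wt F x) (w' := wt F y) hf.flag) m2
  have k2 := hL.dist_le_mul (s y) m3 _ m2
  rw [dist_eq_norm, dist_eq_norm] at k2
  have k3 : s y - (s x + tauv F ε (wt F x) (wt F y)) = nuv F ε (wt F x) (wt F y) := by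
    have : s y = s x + (tauv F ε (wt F x) (wt F y) + nuv F ε (wt F x) (wt F y)) := by
      rw [← hsub]; abel
    rw [this]; abel
  rw [k3] at k2
  have k4 : (G ∘ s) y - (G ∘ s) x = (G (s y) - G (s x + tauv F ε (wt F x) (wt F y))) +
      (G (s x + tauv F ε (wt F x) (wt F y)) - G (s x)) := by
    simp only [Function.comp]
    abel
  rw [k4]
  refine (norm_add_le _ _).trans ?_
  have k5 := mul_le_mul_of_nonneg_left hτ hm0
  have k6 := mul_le_mul_of_nonneg_left hν L.2
  have k7 : (m * (2688 / mu F x) + L * (5376 * e / (mu F x) ^ 2)) * ‖y - x‖ =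
    m * (2688 / mu F x * ‖y - x‖) + L * (5376 * e / (mu F x) ^ 2 * ‖y - x‖) := by ring
  rw [k7]
  change _ ≤ m * (2688 / mu F x * ‖y - x‖) + (L : ℝ) * _
  have k6' : (L : ℝ) * ‖nuv F ε (wt F x) (wt F y)‖ ≤
    (L : ℝ) * (5376 * e / (mu F x) ^ 2 * ‖y - x‖) := k6
  linarith

lemma aa_mem (hf : FlagFacts C F) {x : E} (hx : x ∈ openSimplex F) : aa F x ∈ (F 2).carrier := by
  have hm := mu_pos hf hx
  have h := hf.w x hx
  have h2 : ∑ k ∈ ({0, 1, 2} : Finset (Fin 6)), (wt F x k / mu F x) • (F k).center = aa F x := by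
    rw [Finset.sum_insert (by decide), Finset.sum_insert (by decide), Finset.sum_singleton]
    unfold aa
    simp only [smul_add, smul_smul, div_eq_inv_mul]
    abel
  rw [← h2]
  apply (convex_carrier (F 2)).sum_mem
  · intro k _
    exact div_nonneg (h.pos k).le hm.le
  · rw [← Finset.sum_div, Finset.sum_insert (by decide), Finset.sum_insert (by decide),
      Finset.sum_singleton, ← add_assoc]
    exact div_self hm.ne'
  · intro k hk
    apply flag_center hf.flag
    revert hk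
    revert k
    decide

lemma enorm_le_of_norm_le {V : Type*} [NormedAddCommGroup V] {v : V} {a : ℝ} (h : ‖v‖ ≤ a) :
    ‖v‖ₑ ≤ ENNReal.ofReal a := by
  rw [← ofReal_norm]
  exact ENNReal.ofReal_le_ofReal h

lemma tan_real {G : E → E} {F : Cell} {p : E} {m : ℝ≥0∞} (hm : m ≠ ⊤) (h : TanAt G F p m) :
    ∃ δ > 0, ∀ z ∈ ball p δ, ∀ τ ∈ F.dir, z + τ ∈ ball p δ → ‖G (z + τ) - G z‖ ≤ m.toReal * ‖τ‖ := by
  obtain ⟨δ, hδ, h⟩ := h
  refine ⟨δ, hδ, fun z hz τ hτ hzτ => ?_⟩
  have h1 := h z hz τ hτ hzτ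
  have h2 := ENNReal.toReal_mono (ENNReal.mul_ne_top hm enorm_ne_top) h1
  rwa [ENNReal.toReal_mul, toReal_enorm, toReal_enorm] at h2

end main

theorem a7 (h1 : A1Statement) (h5 : A5Statement) (h6 : A6Statement) : A7Statement := by
  refine ⟨8 * 2688 ^ 2, ?_⟩
  intro C hC F hF G hG M hM hTan η hη
  have hf := flagFacts h5 hC hF
  obtain ⟨h6a, h6b⟩ := h6 C hC F hF
  have hcar : (F 5).carrier ⊆ Cᶜ := by
    intro x hx hxC
    have := (h1 C hC).2.2.2.1 (F 5) (hF.1 5).1 x hx x hxC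
    rw [sub_self, norm_zero] at this
    exact absurd this (not_le.mpr (len_pos _))
  obtain ⟨L, hL⟩ := locLip_compact hG (isCompact_carrier (F 5)) hcar
  by_contra hcon
  push Not at hcon
  have hcon' : ∀ n : ℕ, ∃ (ε : Fin 6 → ℝ) (s : E → E), Eps ε (1 / ((n : ℝ) + 1)) ∧
      (∀ x ∈ openSimplex F, s x = SS F ε (wt F x)) ∧
      ((8 * 2688 ^ 2 : ℝ≥0) : ℝ≥0∞) * (∫⁻ y in (F 2).thick, M ((F 2).proj y) ^ 2) + η <
        ∫⁻ x in openSimplex F, ‖fderiv ℝ (G ∘ s) x‖ₑ ^ 2 := by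
    intro n
    obtain ⟨ε, e1, e2, e3, e4, e5, e6, e7, s, hs, hlt⟩ := hcon (1 / ((n : ℝ) + 1)) (by positivity)
    refine ⟨ε, s, ⟨e1, e2, e3, e4, ?_⟩, ?_, hlt⟩
    · intro k hk
      rcases k with ⟨k, hk'⟩
      have hk3 : 3 ≤ k := hk
      interval_cases k
      · exact e5
      · exact e6
      · exact e7
    · intro x hx
      rw [hs x hx, SS_eq]
  choose ε s he hs hlt using hcon'
  have hen : Tendsto (fun n : ℕ => 1 / ((n : ℝ) + 1)) atTop (𝓝 0) :=
    tendsto_one_div_add_atTop_nhds_zero_nat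
  have hmeas : ∀ n, Measurable fun x => ‖fderiv ℝ (G ∘ s n) x‖ₑ ^ 2 := fun n =>
    ((measurable_fderiv ℝ (G ∘ s n)).enorm).pow_const 2
  set D : E → ℝ≥0∞ := fun x => ENNReal.ofReal (L * 5376) ^ 2 * (1 / ENNReal.ofReal (mu F x) ^ 2)
    with hD
  have hsx : ∀ n, ∀ x ∈ openSimplex F, s n x ∈ (F 5).carrier := by
    intro n x hx
    rw [hs n x hx]
    unfold SS
    apply (convex_carrier (F 5)).sum_mem
    · intro k _; exact bb_nonneg (he n) (hf.w x hx) k
    · exact bb_sum (he n) (hf.w x hx)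
    · intro k _; exact flag_center hF k 5 (Fin.le_last k)
  have hbound : ∀ n, (fun x => ‖fderiv ℝ (G ∘ s n) x‖ₑ ^ 2) ≤ᵐ[volume.restrict (openSimplex F)]
      D := by
    intro n
    rw [EventuallyLE, ae_restrict_iff' hf.op.measurableSet]
    refine Eventually.of_forall fun x hx => ?_
    obtain ⟨r, hr, hLr⟩ := hL (s n x) (hsx n x hx)
    have h7 := fderiv_bound1 hf (he n) (hs n) hx hr hLr
    have h8 := enorm_le_of_norm_le h7
    have hm := mu_pos hf hx
    rw [← mul_div_assoc, ENNReal.ofReal_div_of_pos hm] at h8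
    calc ‖fderiv ℝ (G ∘ s n) x‖ₑ ^ 2 ≤ (ENNReal.ofReal (L * 5376) / ENNReal.ofReal (mu F x)) ^ 2 :=
          pow_le_pow_left' h8 2
      _ = D x := by
          rw [hD, ENNReal.div_eq_inv_mul, mul_pow, ← ENNReal.inv_pow]
          simp only [one_div]
          rw [mul_comm]
  have hDfin : ∫⁻ x in openSimplex F, D x ≠ ⊤ := by
    rw [hD, lintegral_const_mul' _ _ (ENNReal.pow_ne_top ENNReal.ofReal_ne_top)]
    apply ENNReal.mul_ne_top (ENNReal.pow_ne_top ENNReal.ofReal_ne_top)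
    have h7 := h6a (fun _ => 1) measurable_const
    refine ne_top_of_le_ne_top ?_ h7
    apply ENNReal.mul_ne_top (by norm_num)
    rw [lintegral_const, one_mul, Measure.restrict_apply_univ]
    exact measure_closedBall_lt_top.ne
  have hlim := limsup_lintegral_le (μ := volume.restrict (openSimplex F)) D hmeas hbound hDfin
  have hpt : ∀ᵐ x ∂(volume.restrict (openSimplex F)),
      limsup (fun n => ‖fderiv ℝ (G ∘ s n) x‖ₑ ^ 2) atTop ≤
        ENNReal.ofReal 2688 ^ 2 * (M (aa F x) ^ 2 / ENNReal.ofReal (mu F x) ^ 2) := by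
    have h7 := h6b {p | ¬ TanAt G (F 2) p (M p)} (by
      filter_upwards [hTan] with y hy hy2
      simpa using hy hy2)
    rw [ae_restrict_iff' hf.op.measurableSet]
    filter_upwards [h7] with x hx hxs
    have hT : TanAt G (F 2) (aa F x) (M (aa F x)) := by simpa using hx hxs
    have hm := mu_pos hf hxs
    by_cases hMt : M (aa F x) = ⊤
    · rw [hMt]
      have : (⊤ : ℝ≥0∞) ^ 2 / ENNReal.ofReal (mu F x) ^ 2 = ⊤ := by
        rw [ENNReal.top_pow (by norm_num)]
        exact ENNReal.top_div_of_ne_top (ENNReal.pow_ne_top ENNReal.ofReal_ne_top)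
      rw [this, ENNReal.mul_top]
      · exact le_top
      · simp
    · obtain ⟨δ, hδ, hT⟩ := tan_real hMt hT
      obtain ⟨r0, hr0, hLr⟩ := hL (aa F x) ((hF.2 2 5 (by decide)) (aa_mem hf hxs))
      set r := min δ r0 with hr
      have hrp : 0 < r := lt_min hδ hr0
      set m := (M (aa F x)).toReal with hmdef
      have hev : ∀ᶠ n : ℕ in atTop, 6 * (1 / ((n : ℝ) + 1)) / (mu F x) ^ 2 * (F 5).len < r / 2 := by
        have ht : Tendsto (fun n : ℕ => 6 * (1 / ((n : ℝ) + 1)) / (mu F x) ^ 2 * (F 5).len) atTop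
            (𝓝 (6 * 0 / (mu F x) ^ 2 * (F 5).len)) :=
          ((hen.const_mul 6).div_const _).mul_const _
        rw [mul_zero, zero_div, zero_mul] at ht
        exact ht.eventually (gt_mem_nhds (half_pos hrp))
      have hev2 : ∀ᶠ n : ℕ in atTop, ‖fderiv ℝ (G ∘ s n) x‖ₑ ^ 2 ≤
          ENNReal.ofReal (m * (2688 / mu F x) +
            L * (5376 * (1 / ((n : ℝ) + 1)) / (mu F x) ^ 2)) ^ 2 := by
        filter_upwards [hev] with n hn
        apply pow_le_pow_left'
        apply enorm_le_of_norm_le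
        apply fderiv_bound2 hf (he n) (hs n) hxs hrp (hLr.mono (ball_subset_ball (min_le_right _ _)))
          ENNReal.toReal_nonneg _ hn
        intro z hz τ hτ hzτ
        exact hT z (ball_subset_ball (min_le_left _ _) hz) τ hτ
          (ball_subset_ball (min_le_left _ _) hzτ)
      have hlim2 : Tendsto (fun n : ℕ => ENNReal.ofReal (m * (2688 / mu F x) +
            L * (5376 * (1 / ((n : ℝ) + 1)) / (mu F x) ^ 2)) ^ 2) atTop
          (𝓝 (ENNReal.ofReal (m * (2688 / mu F x) + L * (5376 * 0 / (mu F x) ^ 2)) ^ 2)) := by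
        apply ENNReal.Tendsto.pow
        apply ENNReal.tendsto_ofReal
        exact ((((hen.const_mul 5376).div_const _).const_mul _).const_add _)
      refine (limsup_le_limsup hev2).trans ?_
      rw [hlim2.limsup_eq]
      apply le_of_eq
      rw [mul_zero, zero_div, mul_zero, add_zero, ENNReal.ofReal_mul ENNReal.toReal_nonneg,
        ENNReal.ofReal_toReal hMt, ENNReal.ofReal_div_of_pos hm, ENNReal.div_eq_inv_mul,
        ENNReal.div_eq_inv_mul, mul_pow, mul_pow, ENNReal.inv_pow]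
      ring
  have hfin : ∫⁻ x in openSimplex F, limsup (fun n => ‖fderiv ℝ (G ∘ s n) x‖ₑ ^ 2) atTop ≤
      ((8 * 2688 ^ 2 : ℝ≥0) : ℝ≥0∞) * (∫⁻ y in (F 2).thick, M ((F 2).proj y) ^ 2) := by
    refine (lintegral_mono_ae hpt).trans ?_
    rw [lintegral_const_mul' _ _ (ENNReal.pow_ne_top ENNReal.ofReal_ne_top)]
    have h7 := h6a (fun x => M x ^ 2) (hM.pow_const 2)
    refine (mul_le_mul_right h7 _).trans (le_of_eq ?_)
    rw [← mul_assoc]
    congr 1
    rw [show ENNReal.ofReal 2688 = ((2688 : ℝ≥0) : ℝ≥0∞) by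
      rw [ENNReal.ofReal]; congr 1; ext; norm_num]
    push_cast
    ring
  have h8 : ((8 * 2688 ^ 2 : ℝ≥0) : ℝ≥0∞) * (∫⁻ y in (F 2).thick, M ((F 2).proj y) ^ 2) + η ≤
      limsup (fun n => ∫⁻ x in openSimplex F, ‖fderiv ℝ (G ∘ s n) x‖ₑ ^ 2) atTop := by
    refine le_trans ?_ (liminf_le_limsup)
    apply le_liminf_of_le
    · exact isCobounded_ge_of_top
    · exact Eventually.of_forall fun n => (hlt n).le
  have h9 := (h8.trans hlim).trans hfin
  have h10 : ((8 * 2688 ^ 2 : ℝ≥0) : ℝ≥0∞) * (∫⁻ y in (F 2).thick, M ((F 2).proj y) ^ 2) ≠ ⊤ := by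
    intro htop
    have := hlt 0
    rw [htop, top_add] at this
    exact not_top_lt this
  have h11 : ((8 * 2688 ^ 2 : ℝ≥0) : ℝ≥0∞) * (∫⁻ y in (F 2).thick, M ((F 2).proj y) ^ 2) + η ≤
      ((8 * 2688 ^ 2 : ℝ≥0) : ℝ≥0∞) * (∫⁻ y in (F 2).thick, M ((F 2).proj y) ^ 2) + 0 := by
    rw [add_zero]; exact h9
  exact hη (le_antisymm ((ENNReal.add_le_add_iff_left h10).mp h11) (by simp))

end Pool.Agent.Helper22Sob
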