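import Pool.Agent.Helper22_Sob.A7

set_option autoImplicit false

open Set Filter Topology Metric MeasureTheory
open scoped ENNReal NNReal

namespace Pool.Agent.Helper22Sob

open Pool.Agent.Helper27Sob

/-- free coordinates are monotone, with a gap -/
lemma odd_mono {A B : Cell} (h : A.carrier ⊆ B.carrier) {j : Fin 5} (hj : Odd (A.q j)) :
    Odd (B.q j) ∧ |A.center j - B.center j| ≤ B.len / 2 - A.len / 2 := by
  have hA := len_pos A
  -- two points of A
  have hy : ∀ s : ℝ, |s| ≤ A.len / 2 → (Function.update A.center j (A.center j + s)) ∈ A.carrier := by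
    intro s hs i
    by_cases hi : i = j
    · subst hi
      rw [Function.update_self, if_pos hj]
      simpa using hs
    · rw [Function.update_of_ne hi]
      split_ifs <;> simp
      positivity
  have h1 := h (hy (A.len / 2) (by rw [abs_of_pos (by positivity)])) j
  have h2 := h (hy (-(A.len / 2)) (by rw [abs_neg, abs_of_pos (by positivity)])) j
  rw [Function.update_self] at h1 h2
  by_cases hB : Odd (B.q j)
  · refine ⟨hB, ?_⟩
    rw [if_pos hB] at h1 h2
    rw [abs_le] at h1 h2 ⊢
    constructor <;> linarith [h1.1, h1.2, h2.1, h2.2]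
  · exfalso
    rw [if_neg hB] at h1 h2
    rw [abs_le] at h1 h2
    linarith [h1.1, h1.2, h2.1, h2.2]

/-- the facet coordinate -/
lemma facet (h1 : A1Statement) {C : Set E} (hC : IsClosed C) {A B : Cell} (hA : IsC C A)
    (hB : IsC C B) (hAB : A.carrier ⊆ B.carrier) (hdim : A.dim < B.dim) :
    ∃ j, Odd (B.q j) ∧ ¬ Odd (A.q j) ∧ A.center j ≠ B.center j ∧
      ∀ x ∈ A.carrier, x j = A.center j := by
  by_contra hcon
  push Not at hcon
  have hin : A.center ∈ B.inner := by
    intro j
    have hc := hAB (center_mem_carrier A) j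
    split_ifs with hBj
    · rw [if_pos hBj] at hc
      by_cases hAj : Odd (A.q j)
      · have := (odd_mono hAB hAj).2
        have := len_pos A
        linarith
      · by_cases hne : A.center j = B.center j
        · rw [hne, sub_self, abs_zero]
          have := len_pos B
          positivity
        · obtain ⟨x, hx, hxj⟩ := hcon j hBj hAj hne
          exfalso
          apply hxj
          have := hx j
          rw [if_neg hAj] at this
          have := abs_eq_zero.mp (le_antisymm this (abs_nonneg _))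
          linarith
    · rw [if_neg hBj] at hc
      have := abs_eq_zero.mp (le_antisymm hc (abs_nonneg _))
      linarith
  have := (h1 C hC).2.1 A B A.center hA hB (center_mem_inner A) hin
  rw [this] at hdim
  exact lt_irrefl _ hdim

lemma fixed_coord {A : Cell} {j : Fin 5} (hj : ¬ Odd (A.q j)) {x : E} (hx : x ∈ A.carrier) :
    x j = A.center j := by
  have := hx j
  rw [if_neg hj] at this
  have := abs_eq_zero.mp (le_antisymm this (abs_nonneg _))
  linarith

lemma coord_comb (F : Fin 6 → Cell) (w : Fin 6 → ℝ) (j : Fin 5) :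
    comb F w j = ∑ k, w k * (F k).center j := by
  unfold comb
  rw [Finset.sum_apply]
  rfl

lemma same_weights (h1 : A1Statement) {C : Set E} (hC : IsClosed C) {F : Fin 6 → Cell}
    (hf : FlagFacts C F) {x y : E} (hx : x ∈ openSimplex F) (hy : y ∈ openSimplex F)
    (hxy : ∀ j, ¬ Odd ((F 2).q j) → x j = y j) :
    wt F x 3 = wt F y 3 ∧ wt F x 4 = wt F y 4 ∧ wt F x 5 = wt F y 5 := by
  have hF := hf.flag
  have sub : ∀ k l : Fin 6, k ≤ l → (F k).carrier ⊆ (F l).carrier := hF.2
  have dim : ∀ k l : Fin 6, k < l → (F k).dim < (F l).dim := by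
    intro k l hkl
    rw [(hF.1 k).2, (hF.1 l).2]
    exact hkl
  obtain ⟨j3, o3, n3, c3, v3⟩ := facet h1 hC (hF.1 2).1 (hF.1 3).1 (sub 2 3 (by decide))
    (dim 2 3 (by decide))
  obtain ⟨j4, o4, n4, c4, v4⟩ := facet h1 hC (hF.1 3).1 (hF.1 4).1 (sub 3 4 (by decide))
    (dim 3 4 (by decide))
  obtain ⟨j5, o5, n5, c5, v5⟩ := facet h1 hC (hF.1 4).1 (hF.1 5).1 (sub 4 5 (by decide))
    (dim 4 5 (by decide))
  have n4' : ¬ Odd ((F 2).q j4) := fun h => n4 (odd_mono (sub 2 3 (by decide)) h).1
  have n5' : ¬ Odd ((F 2).q j5) := fun h => n5 (odd_mono (sub 2 4 (by decide)) h).1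
  have e3 := hxy j3 n3
  have e4 := hxy j4 n4'
  have e5 := hxy j5 n5'
  have sx := (hf.w x hx).sum
  have sy := (hf.w y hy).sum
  rw [Fin.sum_univ_six] at sx sy
  rw [← hf.comb x hx, ← hf.comb y hy, coord_comb, coord_comb, Fin.sum_univ_six,
    Fin.sum_univ_six] at e3 e4 e5
  have cc : ∀ k l : Fin 6, k ≤ l → (F k).center ∈ (F l).carrier := fun k l h => flag_center hF k l h
  -- j5
  rw [v5 _ (cc 0 4 (by decide)), v5 _ (cc 1 4 (by decide)), v5 _ (cc 2 4 (by decide)),
    v5 _ (cc 3 4 (by decide))] at e5
  have w5 : wt F x 5 = wt F y 5 := by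
    have h : (wt F x 5 - wt F y 5) * ((F 5).center j5 - (F 4).center j5) = 0 := by
      have sx' : wt F x 0 + wt F x 1 + wt F x 2 + wt F x 3 + wt F x 4 = 1 - wt F x 5 := by linarith
      have sy' : wt F y 0 + wt F y 1 + wt F y 2 + wt F y 3 + wt F y 4 = 1 - wt F y 5 := by linarith
      have e5x : (wt F x 0 + wt F x 1 + wt F x 2 + wt F x 3 + wt F x 4) * (F 4).center j5 +
          wt F x 5 * (F 5).center j5 =
          (wt F y 0 + wt F y 1 + wt F y 2 + wt F y 3 + wt F y 4) * (F 4).center j5 +
          wt F y 5 * (F 5).center j5 := by linarith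
      rw [sx', sy'] at e5x
      linarith
    rcases mul_eq_zero.mp h with h | h
    · linarith
    · exact absurd (by linarith : (F 4).center j5 = (F 5).center j5) c5
  -- j4
  rw [v4 _ (cc 0 3 (by decide)), v4 _ (cc 1 3 (by decide)), v4 _ (cc 2 3 (by decide))] at e4
  have w4 : wt F x 4 = wt F y 4 := by
    have h : (wt F x 4 - wt F y 4) * ((F 4).center j4 - (F 3).center j4) = 0 := by
      have sx' : wt F x 0 + wt F x 1 + wt F x 2 + wt F x 3 = 1 - wt F x 5 - wt F x 4 := by linarith
      have sy' : wt F y 0 + wt F y 1 + wt F y 2 + wt F y 3 = 1 - wt F y 5 - wt F y 4 := by linarith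
      have e4x : (wt F x 0 + wt F x 1 + wt F x 2 + wt F x 3) * (F 3).center j4 +
          wt F x 4 * (F 4).center j4 + wt F x 5 * (F 5).center j4 =
          (wt F y 0 + wt F y 1 + wt F y 2 + wt F y 3) * (F 3).center j4 +
          wt F y 4 * (F 4).center j4 + wt F y 5 * (F 5).center j4 := by linarith
      rw [sx', sy', w5] at e4x
      linarith
    rcases mul_eq_zero.mp h with h | h
    · linarith
    · exact absurd (by linarith : (F 3).center j4 = (F 4).center j4) c4
  rw [v3 _ (cc 0 2 (by decide)), v3 _ (cc 1 2 (by decide))] at e3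
  have w3 : wt F x 3 = wt F y 3 := by
    have h : (wt F x 3 - wt F y 3) * ((F 3).center j3 - (F 2).center j3) = 0 := by
      have sx' : wt F x 0 + wt F x 1 + wt F x 2 = 1 - wt F x 5 - wt F x 4 - wt F x 3 := by linarith
      have sy' : wt F y 0 + wt F y 1 + wt F y 2 = 1 - wt F y 5 - wt F y 4 - wt F y 3 := by linarith
      have e3x : (wt F x 0 + wt F x 1 + wt F x 2) * (F 2).center j3 + wt F x 3 * (F 3).center j3 +
          wt F x 4 * (F 4).center j3 + wt F x 5 * (F 5).center j3 =
          (wt F y 0 + wt F y 1 + wt F y 2) * (F 2).center j3 + wt F y 3 * (F 3).center j3 +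
          wt F y 4 * (F 4).center j3 + wt F y 5 * (F 5).center j3 := by linarith
      rw [sx', sy', w5, w4] at e3x
      linarith
    rcases mul_eq_zero.mp h with h | h
    · linarith
    · exact absurd (by linarith : (F 2).center j3 = (F 3).center j3) c3
  exact ⟨w3, w4, w5⟩

end Pool.Agent.Helper22Sob
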