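import Pool.Agent.Helper27_Sob.Sobolev
import Pool.Agent.Helper27_Sob.Basic

set_option autoImplicit false

open Set Filter Topology Metric MeasureTheory
open scoped ENNReal NNReal

namespace Pool.Agent.Helper22Sob

open Pool.Agent.Helper27Sob

/-- the identification of the two models of `ℝ⁵` -/
noncomputable def TT : Rn 5 ≃L[ℝ] E := EuclideanSpace.equiv (Fin 5) ℝ

lemma TT_mp : MeasurePreserving TT := PiLp.volume_preserving_ofLp (Fin 5)

/-- transfer of a map -/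
noncomputable def tr (f : E → E) : Rn 5 → Rn 5 := TT.symm ∘ f ∘ TT

lemma fderiv_tr (f : E → E) (x : Rn 5) : fderiv ℝ (tr f) x =
    (TT.symm : E →L[ℝ] Rn 5).comp ((fderiv ℝ f (TT x)).comp (TT : Rn 5 →L[ℝ] E)) := by
  unfold tr
  rw [TT.symm.comp_fderiv, TT.comp_right_fderiv]

lemma det_tr (A : E →L[ℝ] E) : ((TT.symm : E →L[ℝ] Rn 5).comp (A.comp (TT : Rn 5 →L[ℝ] E))).det =
    A.det := by
  have h := LinearMap.det_conj (A : E →ₗ[ℝ] E) (TT.symm.toLinearEquiv)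
  exact h

lemma enorm_tr_le (A : E →L[ℝ] E) :
    ‖(TT.symm : E →L[ℝ] Rn 5).comp (A.comp (TT : Rn 5 →L[ℝ] E))‖ₑ ≤
      (‖(TT.symm : E →L[ℝ] Rn 5)‖ₑ * ‖(TT : Rn 5 →L[ℝ] E)‖ₑ) * ‖A‖ₑ := by
  have h : ‖(TT.symm : E →L[ℝ] Rn 5).comp (A.comp (TT : Rn 5 →L[ℝ] E))‖ ≤
      (‖(TT.symm : E →L[ℝ] Rn 5)‖ * ‖(TT : Rn 5 →L[ℝ] E)‖) * ‖A‖ := by
    refine (ContinuousLinearMap.opNorm_comp_le _ _).trans ?_
    have := ContinuousLinearMap.opNorm_comp_le A (TT : Rn 5 →L[ℝ] E)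
    have h2 := mul_le_mul_of_nonneg_left this (norm_nonneg (TT.symm : E →L[ℝ] Rn 5))
    linarith
  rw [← ofReal_norm, ← ofReal_norm, ← ofReal_norm, ← ofReal_norm,
    ← ENNReal.ofReal_mul (norm_nonneg _), ← ENNReal.ofReal_mul (by positivity)]
  exact ENNReal.ofReal_le_ofReal h

lemma locLip_tr {f : E → E} {C : Set E} (h : LocLip f Cᶜ) : LocLip (tr f) (TT ⁻¹' C)ᶜ := by
  have h1 : LocLip (f ∘ TT) (TT ⁻¹' C)ᶜ := by
    apply LocLip.comp h (LipschitzWith.locLip TT.lipschitz _)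
    intro x hx
    exact hx
  exact LocLip.comp (V := univ) (LipschitzWith.locLip TT.symm.lipschitz _) h1 (fun _ _ => trivial)

/-- the energy is finite on all balls -/
lemma energy_finite {f : E → E} {C : Set E} {R r : ℝ} (hf : LocLip f Cᶜ)
    (hC : C ⊆ ball 0 R) (h : ∫⁻ x in closedBall 0 R \ C, ‖fderiv ℝ f x‖ₑ ^ 2 < ⊤) :
    ∫⁻ x in closedBall 0 r \ C, ‖fderiv ℝ f x‖ₑ ^ 2 < ⊤ := by
  set K : Set E := closedBall 0 r \ ball 0 R with hK
  have hKc : IsCompact K := (isCompact_closedBall 0 r).diff isOpen_ball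
  have hKC : K ⊆ Cᶜ := fun x hx hxC => hx.2 (hC hxC)
  obtain ⟨L, hL⟩ := LocLip.exists_unif hf hKc hKC
  have hbd : ∀ x ∈ K, ‖fderiv ℝ f x‖ₑ ≤ L := by
    intro x hx
    obtain ⟨r', hr', h1⟩ := hL x hx
    have h2 := norm_fderiv_le_of_lipschitzOn ℝ (ball_mem_nhds x hr') h1
    rw [← ofReal_norm]
    refine (ENNReal.ofReal_le_ofReal h2).trans ?_
    rw [ENNReal.ofReal_coe_nnreal]
  have hsub : closedBall 0 r \ C ⊆ (closedBall 0 R \ C) ∪ K := by
    intro x hx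
    by_cases hxR : x ∈ ball (0 : E) R
    · left; exact ⟨ball_subset_closedBall hxR, hx.2⟩
    · right; exact ⟨hx.1, hxR⟩
  refine (lintegral_mono_set hsub).trans_lt ((lintegral_union_le _ _ _).trans_lt ?_)
  rw [ENNReal.add_lt_top]
  refine ⟨h, ?_⟩
  calc ∫⁻ x in K, ‖fderiv ℝ f x‖ₑ ^ 2 ≤ ∫⁻ x in K, (L : ℝ≥0∞) ^ 2 := by
        apply setLIntegral_mono' hKc.measurableSet
        intro x hx
        exact pow_le_pow_left' (hbd x hx) 2
    _ = (L : ℝ≥0∞) ^ 2 * volume K := by rw [setLIntegral_const]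
    _ < ⊤ := ENNReal.mul_lt_top (by simp) hKc.measure_lt_top

lemma energy_tr {f : E → E} {C : Set E} {r r' : ℝ}
    (h : ∫⁻ x in closedBall 0 r' \ C, ‖fderiv ℝ f x‖ₑ ^ 2 < ⊤) (_hC : IsCompact C)
    (hr : ∀ x ∈ ball (0 : Rn 5) r, TT x ∈ closedBall (0 : E) r') :
    ∫⁻ x in ball 0 r \ (TT ⁻¹' C), ‖fderiv ℝ (tr f) x‖ₑ ^ 2 < ⊤ := by
  set c : ℝ≥0∞ := ‖(TT.symm : E →L[ℝ] Rn 5)‖ₑ * ‖(TT : Rn 5 →L[ℝ] E)‖ₑ with hc
  have hcfin : c ≠ ⊤ := ENNReal.mul_ne_top enorm_ne_top enorm_ne_top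
  have hTm : MeasurableEmbedding TT := TT.toHomeomorph.measurableEmbedding
  calc ∫⁻ x in ball 0 r \ (TT ⁻¹' C), ‖fderiv ℝ (tr f) x‖ₑ ^ 2
      ≤ ∫⁻ x in ball 0 r \ (TT ⁻¹' C), c ^ 2 * ‖fderiv ℝ f (TT x)‖ₑ ^ 2 := by
        apply lintegral_mono
        intro x
        simp only
        rw [fderiv_tr, ← mul_pow]
        exact pow_le_pow_left' (enorm_tr_le _) 2
    _ = c ^ 2 * ∫⁻ x in ball 0 r \ (TT ⁻¹' C), ‖fderiv ℝ f (TT x)‖ₑ ^ 2 := by
        rw [lintegral_const_mul' _ _ (ENNReal.pow_ne_top hcfin)]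
    _ ≤ c ^ 2 * ∫⁻ x in TT ⁻¹' (closedBall 0 r' \ C), ‖fderiv ℝ f (TT x)‖ₑ ^ 2 := by
        gcongr
        intro x hx
        exact ⟨hr x hx.1, hx.2⟩
    _ = c ^ 2 * ∫⁻ x in closedBall 0 r' \ C, ‖fderiv ℝ f x‖ₑ ^ 2 := by
        rw [TT_mp.setLIntegral_comp_preimage_emb hTm (fun x => ‖fderiv ℝ f x‖ₑ ^ 2)]
    _ < ⊤ := ENNReal.mul_lt_top (ENNReal.pow_ne_top hcfin).lt_top h

open Classical in
theorem final (hS : SqueezeStatement) (hG : GStatement) (h1 : M1Statement) (h2 : M2Statement) :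
    FinalStatement := by
  obtain ⟨C, hCc, hC1, hCv, hR⟩ := hG
  obtain ⟨G, hGC, hGL, hGT, R₁, ρ, hρ, hGρ⟩ := hR 4
  obtain ⟨s, hsC, hsL, hsR, hsE⟩ := hS C 4 G hCc (by norm_num; exact hC1) hGL hGT
  -- the homeomorphism
  set f₀ : E ≃ₜ E := s.trans G with hf₀
  have hf₀' : (f₀ : E → E) = G ∘ s := rfl
  have hf₀L : LocLip f₀ Cᶜ := by
    rw [hf₀']
    apply LocLip.comp hGL hsL
    intro x hx hsx
    apply hx
    have := hsC (s x) hsx
    have h3 := s.injective this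
    rw [h3] at hsx
    exact hsx
  have hf₀C : ∀ x ∈ C, f₀ x = x := by
    intro x hx
    rw [hf₀']
    simp only [Function.comp]
    rw [hsC x hx, hGC x hx]
  set R₂ : ℝ := max 5 (max R₁ 0) with hR₂
  have hfar : ∀ x : E, R₂ < ‖x‖ → f₀ x = ρ x := by
    intro x hx
    rw [hf₀']
    simp only [Function.comp]
    have i1 : (4:ℝ) + 1 < ‖x‖ := by
      refine lt_of_le_of_lt ?_ hx
      norm_num [hR₂]
    have i2 : R₁ < ‖x‖ := lt_of_le_of_lt ((le_max_left _ _).trans (le_max_right _ _)) hx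
    rw [hsR x i1, hGρ x i2]
  have hEn : ∀ r, ∫⁻ x in closedBall 0 r \ C, ‖fderiv ℝ f₀ x‖ₑ ^ 2 < ⊤ := by
    intro r
    apply energy_finite hf₀L (R := 3)
    · intro x hx
      have := hC1 hx
      rw [mem_closedBall] at this
      rw [mem_ball]
      linarith
    · rw [hf₀']
      norm_num at hsE
      exact hsE
  -- transfer
  set f : Rn 5 ≃ₜ Rn 5 := (TT.toHomeomorph.trans f₀).trans TT.symm.toHomeomorph with hf
  have hf' : (f : Rn 5 → Rn 5) = tr f₀ := rfl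
  set C' : Set (Rn 5) := TT ⁻¹' C with hC'
  have hC'c : IsCompact C' := TT.toHomeomorph.isCompact_preimage.mpr hCc
  have hfC : ∀ x ∈ C', f x = x := by
    intro x hx
    rw [hf']
    unfold tr
    simp only [Function.comp]
    rw [hf₀C (TT x) hx, ContinuousLinearEquiv.symm_apply_apply]
  -- the region far away
  obtain ⟨p, hp⟩ : ∃ p : Rn 5, R₂ < ‖TT p‖ := by
    refine ⟨TT.symm (fun _ => R₂ + 1), ?_⟩
    rw [ContinuousLinearEquiv.apply_symm_apply]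
    have h3 := norm_le_pi_norm (fun _ : Fin 5 => R₂ + 1) 0
    have h4 : R₂ + 1 ≤ ‖R₂ + 1‖ := le_abs_self _
    have h5 : R₂ + 1 ≤ ‖(fun _ : Fin 5 => R₂ + 1)‖ := h4.trans h3
    exact lt_of_lt_of_le (by linarith) h5
  set Bf : Set (Rn 5) := {x | R₂ < ‖TT x‖} with hBf
  have hBfo : IsOpen Bf := isOpen_lt continuous_const (TT.continuous.norm)
  obtain ⟨δ, hδ, hball⟩ := Metric.isOpen_iff.mp hBfo p hp
  -- the radius
  obtain ⟨r₁, hr₁⟩ := hC'c.isBounded.subset_ball (0 : Rn 5)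
  set r : ℝ := max r₁ (‖p‖ + δ) with hr
  set g : Rn 5 → Rn 5 →L[ℝ] Rn 5 := fun x => if x ∈ C' then ContinuousLinearMap.id ℝ (Rn 5) else
    fderiv ℝ f x with hg
  have hEf : ∫⁻ x in ball 0 r \ C', ‖fderiv ℝ f x‖ₑ ^ 2 < ⊤ := by
    rw [hf']
    apply energy_tr (hEn (‖(TT : Rn 5 →L[ℝ] E)‖ * r)) hCc
    intro x hx
    rw [mem_closedBall_zero_iff]
    rw [mem_ball_zero_iff] at hx
    exact ((TT : Rn 5 →L[ℝ] E).le_opNorm x).trans (mul_le_mul_of_nonneg_left hx.le (norm_nonneg _))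
  have hmem : MemW 2 (ball 0 r) f g := h2 5 C' f r hC'c f.continuous hfC
    (by rw [hf']; exact locLip_tr hf₀L) hEf
  have hAsub : C' ⊆ ball 0 r := hr₁.trans (ball_subset_ball (le_max_left _ _))
  have hBsub : ball p δ ⊆ ball 0 r := by
    apply ball_subset_ball'
    rw [dist_zero_right, add_comm]
    exact le_max_right _ _
  have hAv : 0 < volume C' := by
    rw [hC', TT_mp.measure_preimage hCc.measurableSet.nullMeasurableSet]
    exact hCv
  have hBv : 0 < volume (ball p δ) := measure_ball_pos _ _ hδ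
  have hAdet : ∀ x ∈ C', 0 < (g x).det := by
    intro x hx
    rw [hg]
    simp only [if_pos hx]
    rw [ContinuousLinearMap.det, ContinuousLinearMap.coe_id, LinearMap.det_id]
    exact one_pos
  have hBdet : ∀ x ∈ ball p δ, (g x).det < 0 := by
    intro x hx
    have hxB : R₂ < ‖TT x‖ := hball hx
    have hxC : x ∉ C' := by
      intro hxC
      have := hC1 hxC
      rw [mem_closedBall_zero_iff] at this
      have h5 : (5:ℝ) ≤ R₂ := le_max_left _ _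
      linarith
    rw [hg]
    simp only [if_neg hxC]
    have hd : fderiv ℝ f x = fderiv ℝ (tr ρ) x := by
      apply Filter.EventuallyEq.fderiv_eq
      filter_upwards [hBfo.mem_nhds hxB] with y hy
      rw [hf']
      unfold tr
      simp only [Function.comp]
      rw [hfar (TT y) hy]
    rw [hd, fderiv_tr, det_tr, ContinuousLinearMap.fderiv]
    exact hρ
  refine ⟨f, g, r, C', ball p δ, hmem, ⟨⟨g, hmem⟩, ?_⟩, hAsub, hBsub, hC'c.measurableSet,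
    measurableSet_ball, hAv, hBv, hAdet, hBdet, ?_⟩
  · exact f.isEmbedding.comp IsEmbedding.subtypeVal
  · exact h1 5 (ball 0 r) f g isOpen_ball (convex_ball 0 r).isPreconnected hmem C' (ball p δ)
      hAsub hBsub hAv.ne' hBv.ne' hAdet hBdet

end Pool.Agent.Helper22Sob
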