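import Pool.Agent.Helper22_Sob.Real

set_option autoImplicit false

open Set Filter Topology Metric MeasureTheory
open scoped ENNReal NNReal

namespace Pool.Agent.Helper22Sob

open Pool.Agent.Helper27Sob

lemma len_pos (F : Cell) : 0 < F.len := by
  unfold Cell.len ell; positivity

lemma center_mem_carrier (F : Cell) : F.center ∈ F.carrier := by
  intro j
  have := len_pos F
  split_ifs
  · simp; positivity
  · simp

lemma center_mem_inner (F : Cell) : F.center ∈ F.inner := by
  intro j
  have := len_pos F
  split_ifs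
  · simp; positivity
  · rfl

lemma carrier_diam {F : Cell} {x y : E} (hx : x ∈ F.carrier) (hy : y ∈ F.carrier) :
    ‖x - y‖ ≤ F.len := by
  have hl := len_pos F
  rw [pi_norm_le_iff_of_nonneg hl.le]
  intro j
  have h1 := hx j
  have h2 := hy j
  rw [Pi.sub_apply, Real.norm_eq_abs]
  have h3 : |x j - y j| ≤ |x j - F.center j| + |y j - F.center j| := by
    have := abs_sub_le (x j) (F.center j) (y j)
    rwa [abs_sub_comm (F.center j)] at this
  split_ifs at h1 h2 <;> linarith

lemma isClosed_carrier (F : Cell) : IsClosed F.carrier := by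
  have : F.carrier = ⋂ j, {x : E | |x j - F.center j| ≤ if Odd (F.q j) then F.len / 2 else 0} := by
    ext x; simp [Cell.carrier]
  rw [this]
  apply isClosed_iInter
  intro j
  exact isClosed_le (by fun_prop) continuous_const

lemma carrier_subset_ball (F : Cell) : F.carrier ⊆ closedBall F.center F.len := by
  intro x hx
  rw [mem_closedBall, dist_eq_norm]
  exact carrier_diam hx (center_mem_carrier F)

lemma isCompact_carrier (F : Cell) : IsCompact F.carrier :=
  (isCompact_closedBall F.center F.len).of_isClosed_subset (isClosed_carrier F)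
    (carrier_subset_ball F)

lemma sub_center_mem_dir {F : Cell} {x : E} (hx : x ∈ F.carrier) : x - F.center ∈ F.dir := by
  intro j hj
  have h := hx j
  rw [if_neg hj] at h
  rw [Pi.sub_apply]
  exact abs_eq_zero.mp (le_antisymm h (abs_nonneg _))

lemma convex_carrier (F : Cell) : Convex ℝ F.carrier := by
  have : F.carrier = ⋂ j, {x : E | |x j - F.center j| ≤ if Odd (F.q j) then F.len / 2 else 0} := by
    ext x; simp [Cell.carrier]
  rw [this]
  apply convex_iInter
  intro j
  have h2 : {x : E | |x j - F.center j| ≤ if Odd (F.q j) then F.len / 2 else 0} =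
      (fun x : E => x j) ⁻¹' (closedBall (F.center j) (if Odd (F.q j) then F.len / 2 else 0)) := by
    ext x; simp [Real.dist_eq]
  rw [h2]
  exact (convex_closedBall _ _).is_linear_preimage ⟨fun _ _ => rfl, fun _ _ => rfl⟩

section flag

variable {C : Set E} {F : Fin 6 → Cell}

lemma flag_center (hF : IsFlag C F) (k l : Fin 6) (h : k ≤ l) : (F k).center ∈ (F l).carrier :=
  hF.2 k l h (center_mem_carrier _)

lemma center_diff (hF : IsFlag C F) (k : Fin 6) : ‖(F k).center - (F 2).center‖ ≤ (F 5).len :=
  carrier_diam (flag_center hF k 5 (Fin.le_last k)) (flag_center hF 2 5 (by decide))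

/-- linear combinations of the differences of the centres -/
lemma norm_comb_le (hF : IsFlag C F) (s : Finset (Fin 6)) (a : Fin 6 → ℝ) (B : ℝ)
    (ha : ∀ k ∈ s, |a k| ≤ B) :
    ‖∑ k ∈ s, a k • ((F k).center - (F 2).center)‖ ≤ s.card * B * (F 5).len := by
  refine (norm_sum_le _ _).trans ?_
  have : ∀ k ∈ s, ‖a k • ((F k).center - (F 2).center)‖ ≤ B * (F 5).len := by
    intro k hk
    rw [norm_smul, Real.norm_eq_abs]
    exact mul_le_mul (ha k hk) (center_diff hF k) (norm_nonneg _) ((abs_nonneg _).trans (ha k hk))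
  refine (Finset.sum_le_sum this).trans ?_
  rw [Finset.sum_const, nsmul_eq_mul, mul_assoc]

lemma comb_mem_dir (hF : IsFlag C F) (a : Fin 6 → ℝ) :
    ∑ k ∈ Finset.univ.filter (fun k : Fin 6 => k ≤ 2), a k • ((F k).center - (F 2).center) ∈
      (F 2).dir := by
  apply Submodule.sum_mem
  intro k hk
  apply Submodule.smul_mem
  exact sub_center_mem_dir (flag_center hF k 2 (Finset.mem_filter.mp hk).2)

end flag

/-- uniform local Lipschitz constant on a compact set -/
lemma locLip_compact {G : E → E} {U K : Set E} (hG : LocLip G U) (hK : IsCompact K) (hKU : K ⊆ U) :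
    ∃ L : ℝ≥0, ∀ p ∈ K, ∃ r > 0, LipschitzOnWith L G (ball p r) := by
  have := hK.induction_on (p := fun s => ∃ L : ℝ≥0, ∀ p ∈ s, ∃ r > 0, LipschitzOnWith L G (ball p r))
    ⟨0, fun p hp => hp.elim⟩ (fun s t hst ⟨L, hL⟩ => ⟨L, fun p hp => hL p (hst hp)⟩)
    (fun s t ⟨L, hL⟩ ⟨L', hL'⟩ => ⟨max L L', fun p hp => by
      rcases hp with hp | hp
      · obtain ⟨r, hr, h⟩ := hL p hp
        exact ⟨r, hr, h.weaken (le_max_left _ _)⟩
      · obtain ⟨r, hr, h⟩ := hL' p hp
        exact ⟨r, hr, h.weaken (le_max_right _ _)⟩⟩)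
    (fun x hx => by
      obtain ⟨r, hr, L, h⟩ := hG x (hKU hx)
      refine ⟨ball x r, mem_nhdsWithin_of_mem_nhds (ball_mem_nhds x hr), L, fun p hp => ?_⟩
      refine ⟨r - dist p x, by rw [mem_ball] at hp; linarith, h.mono ?_⟩
      apply ball_subset_ball'
      linarith)
  exact this

end Pool.Agent.Helper22Sob
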