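import Pool.Agent.Helper27_Sob.Statements

set_option autoImplicit false

open Set Filter Topology Metric MeasureTheory
open scoped ENNReal NNReal

namespace Pool.Agent.Helper22Sob

open Pool.Agent.Helper27Sob

/-- normalised weights -/
noncomputable def bb (ε w : Fin 6 → ℝ) (k : Fin 6) : ℝ := ε k * w k / ∑ j, ε j * w j

structure Wts (w : Fin 6 → ℝ) : Prop where
  pos : ∀ k, 0 < w k
  sum : ∑ k, w k = 1

structure Eps (ε : Fin 6 → ℝ) (e : ℝ) : Prop where
  pos : ∀ k, 0 < ε k ∧ ε k ≤ 1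
  h0 : ε 0 = 1
  h1 : ε 1 = 1
  h2 : ε 2 = 1
  h3 : ∀ k : Fin 6, 3 ≤ k → ε k ≤ e

variable {ε w w' : Fin 6 → ℝ} {e d : ℝ}

lemma Wts.le_one (h : Wts w) (k : Fin 6) : w k ≤ 1 := by
  rw [← h.sum]
  exact Finset.single_le_sum (fun j _ => (h.pos j).le) (Finset.mem_univ k)

lemma m_pos (h : Wts w) : 0 < w 0 + w 1 + w 2 := by
  have := h.pos 0; have := h.pos 1; have := h.pos 2; linarith

lemma m_le_one (h : Wts w) : w 0 + w 1 + w 2 ≤ 1 := by
  have h1 := h.sum
  rw [Fin.sum_univ_six] at h1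
  have := h.pos 3; have := h.pos 4; have := h.pos 5
  linarith

lemma m_le_W (he : Eps ε e) (h : Wts w) : w 0 + w 1 + w 2 ≤ ∑ j, ε j * w j := by
  rw [Fin.sum_univ_six, he.h0, he.h1, he.h2]
  have := mul_pos (he.pos 3).1 (h.pos 3)
  have := mul_pos (he.pos 4).1 (h.pos 4)
  have := mul_pos (he.pos 5).1 (h.pos 5)
  linarith

lemma W_pos (he : Eps ε e) (h : Wts w) : 0 < ∑ j, ε j * w j := (m_pos h).trans_le (m_le_W he h)

lemma W_sub_m (he : Eps ε e) (h : Wts w) :
    (∑ j, ε j * w j) - (w 0 + w 1 + w 2) ≤ e := by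
  rw [Fin.sum_univ_six, he.h0, he.h1, he.h2]
  have e3 := he.h3 3 (by decide)
  have e4 := he.h3 4 (by decide)
  have e5 := he.h3 5 (by decide)
  have w3 := h.pos 3
  have w4 := h.pos 4
  have w5 := h.pos 5
  have hs := h.sum
  rw [Fin.sum_univ_six] at hs
  have e0 : 0 < e := (he.pos 3).1.trans_le e3
  have hm := m_pos h
  have i3 := mul_le_mul_of_nonneg_right e3 w3.le
  have i4 := mul_le_mul_of_nonneg_right e4 w4.le
  have i5 := mul_le_mul_of_nonneg_right e5 w5.le
  have : e * (w 3 + w 4 + w 5) ≤ e * 1 := by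
    apply mul_le_mul_of_nonneg_left _ e0.le
    linarith
  linarith

lemma bb_sum (he : Eps ε e) (h : Wts w) : ∑ k, bb ε w k = 1 := by
  unfold bb
  rw [← Finset.sum_div]
  exact div_self (W_pos he h).ne'

lemma bb_nonneg (he : Eps ε e) (h : Wts w) (k : Fin 6) : 0 ≤ bb ε w k :=
  div_nonneg (mul_nonneg (he.pos k).1.le (h.pos k).le) (W_pos he h).le

lemma bb_le_one (he : Eps ε e) (h : Wts w) (k : Fin 6) : bb ε w k ≤ 1 := by
  rw [← bb_sum he h]
  exact Finset.single_le_sum (fun j _ => bb_nonneg he h j) (Finset.mem_univ k)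

lemma W_diff (he : Eps ε e) (hd : ∀ k, |w k - w' k| ≤ d) :
    |(∑ j, ε j * w j) - ∑ j, ε j * w' j| ≤ 6 * d := by
  rw [← Finset.sum_sub_distrib]
  refine (Finset.abs_sum_le_sum_abs _ _).trans ?_
  have : ∀ k ∈ (Finset.univ : Finset (Fin 6)), |ε k * w k - ε k * w' k| ≤ d := by
    intro k _
    rw [← mul_sub, abs_mul, abs_of_pos (he.pos k).1]
    have := mul_le_mul (he.pos k).2 (hd k) (abs_nonneg _) zero_le_one
    simpa using this
  refine (Finset.sum_le_sum this).trans ?_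
  simp

lemma bb_sub_eq (he : Eps ε e) (h : Wts w) (h' : Wts w') (k : Fin 6) :
    bb ε w' k - bb ε w k = ε k * (w' k - w k) / (∑ j, ε j * w j) +
      bb ε w' k * ((∑ j, ε j * w j) - ∑ j, ε j * w' j) / (∑ j, ε j * w j) := by
  have h1 := (W_pos he h).ne'
  have h2 := (W_pos he h').ne'
  unfold bb
  field_simp
  ring

lemma bb_diff (he : Eps ε e) (h : Wts w) (h' : Wts w') (hd : ∀ k, |w k - w' k| ≤ d) (k : Fin 6) :
    |bb ε w' k - bb ε w k| ≤ 7 * d / (w 0 + w 1 + w 2) := by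
  have hm := m_pos h
  have hW := W_pos he h
  have hd0 : 0 ≤ d := (abs_nonneg _).trans (hd 0)
  rw [bb_sub_eq he h h', ← add_div, abs_div, abs_of_pos hW]
  refine (div_le_div_of_nonneg_right (?_ : _ ≤ 7 * d) hW.le).trans ?_
  · refine (abs_add_le _ _).trans ?_
    rw [abs_mul, abs_mul, abs_of_pos (he.pos k).1, abs_of_nonneg (bb_nonneg he h' k)]
    have i1 := mul_le_mul (he.pos k).2 (hd k) (abs_nonneg _) zero_le_one
    rw [abs_sub_comm] at i1
    have i2 := mul_le_mul (bb_le_one he h' k) (W_diff he hd) (abs_nonneg _) zero_le_one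
    linarith
  · exact div_le_div_of_nonneg_left (by positivity) hm (m_le_W he h)

lemma bb_diff3 (he : Eps ε e) (h : Wts w) (h' : Wts w') (hd : ∀ k, |w k - w' k| ≤ d) (k : Fin 6)
    (hk : 3 ≤ k) :
    |bb ε w' k - bb ε w k| ≤ 7 * e * d / ((w 0 + w 1 + w 2) * (w' 0 + w' 1 + w' 2)) := by
  have hm := m_pos h
  have hm' := m_pos h'
  have hm1' := m_le_one h'
  have hW := W_pos he h
  have hW' := W_pos he h'
  have hd0 : 0 ≤ d := (abs_nonneg _).trans (hd 0)
  have hek := he.h3 k hk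
  have he0 : 0 < e := (he.pos k).1.trans_le hek
  have hb : bb ε w' k ≤ e / (w' 0 + w' 1 + w' 2) := by
    unfold bb
    refine div_le_div₀ he0.le ?_ hm' (m_le_W he h')
    calc ε k * w' k ≤ e * 1 := mul_le_mul hek (h'.le_one k) (h'.pos k).le he0.le
      _ = e := mul_one e
  rw [bb_sub_eq he h h', ← add_div, abs_div, abs_of_pos hW]
  have hnum : |ε k * (w' k - w k) + bb ε w' k * ((∑ j, ε j * w j) - ∑ j, ε j * w' j)| ≤
      7 * e * d / (w' 0 + w' 1 + w' 2) := by
    refine (abs_add_le _ _).trans ?_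
    rw [abs_mul, abs_mul, abs_of_pos (he.pos k).1, abs_of_nonneg (bb_nonneg he h' k)]
    have i1 := mul_le_mul hek (hd k) (abs_nonneg _) he0.le
    rw [abs_sub_comm] at i1
    have i2 := mul_le_mul hb (W_diff he hd) (abs_nonneg _) (by positivity)
    have i3 : e * d ≤ e * d / (w' 0 + w' 1 + w' 2) := by
      rw [le_div_iff₀ hm']
      exact mul_le_of_le_one_right (by positivity) hm1'
    have i4 : e / (w' 0 + w' 1 + w' 2) * (6 * d) = 6 * (e * d / (w' 0 + w' 1 + w' 2)) := by ring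
    have i5 : 7 * e * d / (w' 0 + w' 1 + w' 2) = 7 * (e * d / (w' 0 + w' 1 + w' 2)) := by ring
    rw [i4] at i2
    rw [i5]
    linarith
  calc _ ≤ (7 * e * d / (w' 0 + w' 1 + w' 2)) / (w 0 + w 1 + w 2) :=
        div_le_div₀ (by positivity) hnum hm (m_le_W he h)
    _ = _ := by rw [div_div, mul_comm (w 0 + w 1 + w 2)]

lemma bb_low (he : Eps ε e) (h : Wts w) (k : Fin 6) (hk : k ≤ 2) :
    |bb ε w k - w k / (w 0 + w 1 + w 2)| ≤ e / (w 0 + w 1 + w 2) ^ 2 := by
  have hm := m_pos h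
  have hW := W_pos he h
  have hek : ε k = 1 := by
    rcases k with ⟨k, hk'⟩
    have hk2 : k ≤ 2 := hk
    interval_cases k
    · exact he.h0
    · exact he.h1
    · exact he.h2
  have h1 := W_sub_m he h
  have h2 := m_le_W he h
  have he0 : 0 ≤ e := by
    have := he.h3 3 (by decide)
    exact (he.pos 3).1.le.trans this
  unfold bb
  rw [hek, one_mul]
  have h3 : w k / (∑ j, ε j * w j) - w k / (w 0 + w 1 + w 2) =
      - (w k * ((∑ j, ε j * w j) - (w 0 + w 1 + w 2)) / ((∑ j, ε j * w j) * (w 0 + w 1 + w 2))) := by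
    field_simp
    ring
  rw [h3, abs_neg, abs_div, abs_mul, abs_mul, abs_of_pos (h.pos k), abs_of_pos hW, abs_of_pos hm,
    abs_of_nonneg (by linarith), pow_two]
  apply div_le_div₀ he0 _ (by positivity)
  · exact mul_le_mul_of_nonneg_right h2 hm.le
  · calc _ ≤ 1 * e := mul_le_mul (h.le_one k) h1 (by linarith) zero_le_one
      _ = e := one_mul e

lemma bb_high (he : Eps ε e) (h : Wts w) (k : Fin 6) (hk : 3 ≤ k) :
    bb ε w k ≤ e / (w 0 + w 1 + w 2) := by
  have hm := m_pos h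
  have hek := he.h3 k hk
  have he0 : 0 < e := (he.pos k).1.trans_le hek
  unfold bb
  refine div_le_div₀ he0.le ?_ hm (m_le_W he h)
  calc ε k * w k ≤ e * 1 := mul_le_mul hek (h.le_one k) (h.pos k).le he0.le
    _ = e := mul_one e

end Pool.Agent.Helper22Sob
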